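import Pool.Agent.P.MP_2cf87a_nt.Geom

/-!
The game produces points of the mixed badly approximable set outside a given family of balls.
-/

open MeasureTheory Set Metric
open scoped ENNReal

namespace Pool.Agent.P.MP_2cf87a_nt

/-- The quantity `n m_n^s M_n^(2-s)`. -/
noncomputable def Fs (s : ℝ) (n : ℕ) (x : ℝ × ℝ) : ℝ :=
  n * (min |n * x.1 - round (n * x.1)| |n * x.2 - round (n * x.2)|) ^ s *
    (max |n * x.1 - round (n * x.1)| |n * x.2 - round (n * x.2)|) ^ (2 - s)

lemma mix_le {m M s : ℝ} (hs : 0 < s) (hm : 0 ≤ m) (hmM : m ≤ M) :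
    m ^ s * M ^ (2 - s) ≤ M ^ 2 := by
  have hM : 0 ≤ M := hm.trans hmM
  calc m ^ s * M ^ (2 - s) ≤ M ^ s * M ^ (2 - s) := by
        gcongr
    _ = M ^ 2 := by
        rw [← Real.rpow_add' hM (by norm_num)]
        norm_num

lemma mix_eq {m M s : ℝ} (hm : 0 ≤ m) (hM : 0 < M) :
    m ^ s * M ^ (2 - s) = (m / M) ^ s * M ^ 2 := by
  rw [Real.div_rpow hm hM.le, Real.rpow_sub hM]
  have : M ^ s ≠ 0 := (Real.rpow_pos_of_pos hM s).ne'
  field_simp
  norm_num

lemma ofReal_four (k : ℕ) (a : ℝ) :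
    (4 : ℝ≥0∞) ^ k * ENNReal.ofReal a = ENNReal.ofReal (4 ^ k * a) := by
  rw [ENNReal.ofReal_mul (by positivity), ENNReal.ofReal_pow (by norm_num)]
  norm_num

lemma rho_le {R : ℕ} (hR : 0 < R) (k : ℕ) : rho R (k + 1) ≤ rho R k := by
  rw [← rho_succ hR k]
  have : (1 : ℝ) ≤ R := by exact_mod_cast hR
  nlinarith [rho_pos hR (k + 1)]

lemma tsum_half (a : ℝ) (ha : 0 ≤ a) :
    ∑' i : ℕ, ENNReal.ofReal (a / 2 / 2 ^ i) = ENNReal.ofReal a := by
  rw [← ENNReal.ofReal_tsum_of_nonneg (fun _ => by positivity) (summable_geometric_two' a),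
    tsum_geometric_two']

lemma ball_Hs {x D : ℝ × ℝ} {a e r : ℝ} (ha : |a| ≤ 1) (hD : D.2 = a * D.1 + e)
    (hx : dist D x ≤ r) : closedBall x r ⊆ Hs a e (4 * r) := by
  intro y hy
  have h1 : dist y D ≤ 2 * r := by
    have := dist_triangle_right y D x
    rw [mem_closedBall] at hy
    linarith
  rw [Prod.dist_eq, max_le_iff, Real.dist_eq, Real.dist_eq] at h1
  have h2 : y.2 - (a * y.1 + e) = (y.2 - D.2) - a * (y.1 - D.1) := by rw [hD]; ring
  have h3 : |a * (y.1 - D.1)| ≤ 1 * (2 * r) := by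
    rw [abs_mul]
    exact mul_le_mul ha h1.1 (abs_nonneg _) zero_le_one
  have := abs_sub (y.2 - D.2) (a * (y.1 - D.1))
  change |y.2 - (a * y.1 + e)| ≤ 4 * r
  rw [h2]
  linarith [h1.2]

lemma ball_Vs {x D : ℝ × ℝ} {a e r : ℝ} (ha : |a| ≤ 1) (hD : D.1 = a * D.2 + e)
    (hx : dist D x ≤ r) : closedBall x r ⊆ Vs a e (4 * r) := by
  intro y hy
  have h1 : dist y D ≤ 2 * r := by
    have := dist_triangle_right y D x
    rw [mem_closedBall] at hy
    linarith
  rw [Prod.dist_eq, max_le_iff, Real.dist_eq, Real.dist_eq] at h1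
  have h2 : y.1 - (a * y.2 + e) = (y.1 - D.1) - a * (y.2 - D.2) := by rw [hD]; ring
  have h3 : |a * (y.2 - D.2)| ≤ 1 * (2 * r) := by
    rw [abs_mul]
    exact mul_le_mul ha h1.2 (abs_nonneg _) zero_le_one
  have := abs_sub (y.1 - D.1) (a * (y.2 - D.2))
  change |y.1 - (a * y.2 + e)| ≤ 4 * r
  rw [h2]
  linarith [h1.1]

lemma ball_cross {x : ℝ × ℝ} {p q r : ℝ} (h : min |x.1 - p| |x.2 - q| ≤ r) :
    closedBall x r ⊆ Hs 0 q (2 * r) ∪ Vs 0 p (2 * r) := by
  intro y hy
  rw [mem_closedBall, Prod.dist_eq, max_le_iff, Real.dist_eq, Real.dist_eq] at hy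
  rcases min_le_iff.mp h with h | h
  · right
    change |y.1 - (0 * y.2 + p)| ≤ 2 * r
    have := abs_sub_le y.1 x.1 p
    rw [zero_mul, zero_add]
    linarith [hy.1]
  · left
    change |y.2 - (0 * y.1 + q)| ≤ 2 * r
    have := abs_sub_le y.2 x.2 q
    rw [zero_mul, zero_add]
    linarith [hy.2]

lemma vol_ball (u : ℝ × ℝ) {r : ℝ} (hr : 0 ≤ r) :
    volume (closedBall u r) = ENNReal.ofReal (4 * r ^ 2) := by
  rw [← closedBall_prod_same, Measure.volume_eq_prod, Measure.prod_prod, Real.volume_closedBall,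
    Real.volume_closedBall, ← ENNReal.ofReal_mul (by positivity)]
  congr 1
  ring

theorem avoid {s : ℝ} (hs : 0 < s) {κ R : ℕ} (hRκ : R = 8 * κ ^ 2) (hκ : 4 ≤ κ)
    (hsR : 16 * (R : ℝ) ^ s ≤ R) :
    ∃ c : ℝ, 0 < c ∧ ∀ (u : ℕ → ℝ × ℝ) (l : ℕ → ℕ), (∀ i, 0 < l i) →
      ∑' i, ENNReal.ofReal (4 ^ l i * rho R (l i) ^ 2) ≤ ENNReal.ofReal (1 / 64) →
      ∃ x : ℝ × ℝ, (∀ n : ℕ, 1 ≤ n → c ≤ Fs s n x) ∧ ∀ i, rho R (l i) < dist x (u i) := by
  have hR128 : 128 ≤ R := by nlinarith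
  have hR : 0 < R := by omega
  have hRr : (128 : ℝ) ≤ R := by exact_mod_cast hR128
  have hκr : (4 : ℝ) ≤ κ := by exact_mod_cast hκ
  set θ : ℝ := (κ : ℝ) ^ 2 with hθ
  have hRθ : (R : ℝ) = 8 * θ := by rw [hRκ, hθ]; push_cast; ring
  have hθ1 : 16 ≤ θ := by linarith
  obtain ⟨j0, hj0⟩ := pow_unbounded_of_one_lt ((R : ℝ) ^ 3) (show (1 : ℝ) < 2 by norm_num)
  set c' : ℝ := 1 / (64 * (R : ℝ) ^ 4) with hc'
  have hc'0 : 0 < c' := by positivity
  set c : ℝ := c' / θ ^ j0 with hc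
  have hc0 : 0 < c := by positivity
  have hcc' : c * θ ^ j0 = c' := by rw [hc]; field_simp
  have hc1 : c ≤ 1 := by
    have h1 : (1 : ℝ) ≤ θ ^ j0 := one_le_pow₀ (by linarith)
    have h2 : c' ≤ 1 := by
      rw [hc', div_le_one (by positivity)]
      have : (1 : ℝ) ≤ (R : ℝ) ^ 4 := one_le_pow₀ (by linarith)
      linarith
    nlinarith
  refine ⟨c, hc0, fun u l hl hsum => ?_⟩
  choose a e hae using fun (k : ℕ) (z : ℝ × ℝ) => simplex z (rho_pos hR k)
  let ν1 : Measure (ℝ × ℝ) := Measure.sum fun i =>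
    (4 : ℝ≥0∞) ^ l i • volume.restrict (closedBall (u i) (2 * rho R (l i)))
  let ν2 : ℕ → ℝ × ℝ → Measure (ℝ × ℝ) := fun k z => (4 : ℝ≥0∞) ^ (k + 1) • volume.restrict
    (Hs (a k z) (e k z) (4 * rho R (k + 1)) ∪ Vs (a k z) (e k z) (4 * rho R (k + 1)))
  let ν3 : ℕ → ℝ × ℝ → Measure (ℝ × ℝ) := fun k z => Measure.sum fun i : ℕ =>
    Measure.sum fun t : grp c z (rho R k) (κ ^ (j0 + i)) =>
      (4 : ℝ≥0∞) ^ (k + (j0 + i)) • volume.restrict
        (Hs 0 ((t.1.2.2 : ℝ) / t.1.1) (2 * rho R (k + (j0 + i))) ∪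
          Vs 0 ((t.1.2.1 : ℝ) / t.1.1) (2 * rho R (k + (j0 + i))))
  let ν : ℕ → ℝ × ℝ → Measure (ℝ × ℝ) := fun k z =>
    (if k = 0 then ν1 else 0) + ν2 k z + ν3 k z
  have b1 : ∀ k z, (if k = 0 then ν1 else 0) (Sq z (rho R k))
      ≤ ENNReal.ofReal (4 ^ k * rho R k ^ 2 / 4) := by
    intro k z
    split_ifs with hk
    · subst hk
      rw [Measure.sum_apply _ (measurable_Sq _ _)]
      calc _ ≤ ∑' i, 16 * ENNReal.ofReal (4 ^ l i * rho R (l i) ^ 2) := by
            refine ENNReal.tsum_le_tsum fun i => ?_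
            rw [Measure.smul_apply, Measure.restrict_apply (measurable_Sq _ _), smul_eq_mul]
            refine (mul_le_mul_right (measure_mono inter_subset_right) _).trans (le_of_eq ?_)
            rw [vol_ball _ (by linarith [rho_pos hR (l i)]), ofReal_four,
              ← ENNReal.ofReal_ofNat 16, ← ENNReal.ofReal_mul (by norm_num)]
            congr 1
            ring
        _ ≤ 16 * ENNReal.ofReal (1 / 64) := by
            rw [ENNReal.tsum_mul_left]
            gcongr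
        _ = _ := by
            rw [← ENNReal.ofReal_ofNat 16, ← ENNReal.ofReal_mul (by norm_num), rho_zero]
            norm_num
    · simp
  have b2 : ∀ k z, ν2 k z (Sq z (rho R k)) ≤ ENNReal.ofReal (4 ^ k * rho R k ^ 2 / 2) := by
    intro k z
    have p1 := rho_pos hR (k + 1)
    have p0 := rho_pos hR k
    simp only [ν2]
    rw [Measure.smul_apply, Measure.restrict_apply (measurable_Sq _ _), smul_eq_mul]
    refine (mul_le_mul_right (vol_cross _ _ _ _ (by linarith) p0.le z) _).trans ?_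
    rw [ofReal_four]
    apply ENNReal.ofReal_le_ofReal
    have h1 : 128 * rho R (k + 1) ≤ rho R k := by
      rw [← rho_succ hR k]
      nlinarith
    have h2 : (0 : ℝ) < 4 ^ k * rho R k := by positivity
    rw [pow_succ]
    nlinarith
  have b3 : ∀ k z, ν3 k z (Sq z (rho R k)) ≤ ENNReal.ofReal (4 ^ k * rho R k ^ 2 / 4) := by
    intro k z
    have p0 := rho_pos hR k
    simp only [ν3]
    rw [Measure.sum_apply _ (measurable_Sq _ _), ← tsum_half _ (by positivity)]
    refine ENNReal.tsum_le_tsum fun i => ?_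
    rw [Measure.sum_apply _ (measurable_Sq _ _)]
    have p1 := rho_pos hR (k + (j0 + i))
    calc _ ≤ ∑' _t : grp c z (rho R k) (κ ^ (j0 + i)),
          ENNReal.ofReal (4 ^ (k + (j0 + i)) * (4 * (2 * rho R (k + (j0 + i))) * rho R k)) := by
          refine ENNReal.tsum_le_tsum fun t => ?_
          rw [Measure.smul_apply, Measure.restrict_apply (measurable_Sq _ _), smul_eq_mul,
            ← ofReal_four]
          exact mul_le_mul_right (vol_cross _ _ _ _ (by linarith) p0.le z) _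
      _ ≤ _ := tsum_grp hc0 hc1 z (Nat.one_le_pow _ _ (by omega)) _
      _ ≤ _ := by
          rw [← ENNReal.ofReal_natCast, ← ENNReal.ofReal_mul (Nat.cast_nonneg _)]
          apply ENNReal.ofReal_le_ofReal
          have e1 : (((κ ^ (j0 + i)) ^ 2 : ℕ) : ℝ) * 4 ^ (j0 + i) * rho R (j0 + i)
              = (2 ^ j0 * 2 ^ i)⁻¹ := by
            push_cast
            rw [← pow_mul, mul_comm (j0 + i) 2, pow_mul, ← hθ, rho, hRθ, ← pow_add, ← inv_pow,
              ← inv_pow, ← mul_pow, ← mul_pow]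
            congr 1
            field_simp
            norm_num
          have e2 : (3136 : ℝ) ≤ 2 ^ j0 := by
            have : (128 : ℝ) ^ 3 ≤ (R : ℝ) ^ 3 := by gcongr
            linarith
          calc _ = 4 ^ k * rho R k ^ 2 * (392 * ((((κ ^ (j0 + i)) ^ 2 : ℕ) : ℝ) * 4 ^ (j0 + i)
                * rho R (j0 + i))) := by
                rw [rho_add R k, pow_add (4 : ℝ) k]
                push_cast
                ring
            _ ≤ 4 ^ k * rho R k ^ 2 * (392 * (3136 * 2 ^ i)⁻¹) := by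
                rw [e1]
                gcongr
            _ = _ := by
                field_simp
                norm_num
  obtain ⟨x, z, hxz, hgame⟩ := game hR ν fun k z => by
    have p0 := rho_pos hR k
    simp only [ν]
    rw [Measure.add_apply, Measure.add_apply]
    refine (add_le_add (add_le_add (b1 k z) (b2 k z)) (b3 k z)).trans (le_of_eq ?_)
    rw [← ENNReal.ofReal_add (by positivity) (by positivity),
      ← ENNReal.ofReal_add (by positivity) (by positivity), ofReal_four]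
    congr 1
    ring
  refine ⟨x, ?_, fun i => ?_⟩
  swap
  · by_contra hh
    rw [not_lt] at hh
    refine hgame 0 (l i) (hl i) (closedBall (u i) (2 * rho R (l i))) ?_ ?_
    · apply closedBall_subset_closedBall'
      linarith
    · exact (Measure.le_sum (fun i => (4 : ℝ≥0∞) ^ l i •
        volume.restrict (closedBall (u i) (2 * rho R (l i)))) i).trans
        (Measure.le_add_right (Measure.le_add_right (by simp [ν1])))
  intro n
  induction n using Nat.strong_induction_on with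
  | _ n ih =>
  intro hn
  by_contra hlt
  rw [not_le] at hlt
  have hn0 : (1 : ℝ) ≤ n := by exact_mod_cast hn
  have bad : BadTo c n x := by
    intro m hm hmn p q
    refine (ih m hmn hm).trans ?_
    rw [Fs, mul_assoc]
    apply mul_le_mul_of_nonneg_left _ (Nat.cast_nonneg _)
    refine (mix_le hs (le_min (abs_nonneg _) (abs_nonneg _)) min_le_max).trans ?_
    exact pow_le_pow_left₀ (le_max_of_le_left (abs_nonneg _))
      (max_le_max (round_le _ p) (round_le _ q)) 2
  rw [Fs] at hlt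
  set p : ℤ := round (n * x.1) with hp
  set q : ℤ := round (n * x.2) with hq
  set m : ℝ := min |n * x.1 - p| |n * x.2 - q| with hm
  set M : ℝ := max |n * x.1 - p| |n * x.2 - q| with hM
  have hm0 : 0 ≤ m := le_min (abs_nonneg _) (abs_nonneg _)
  have hM0 : 0 ≤ M := le_max_of_le_left (abs_nonneg _)
  have hM1 : M ≤ 1 / 2 := max_le (abs_sub_round _) (abs_sub_round _)
  have key : ∀ (y : ℝ) (p : ℤ), |y - p / n| = |n * y - p| / n := by
    intro y p
    have : (n : ℝ) * y - p = n * (y - p / n) := by field_simp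
    rw [this, abs_mul, abs_of_pos (by linarith : (0 : ℝ) < n)]
    field_simp
  have hdist : dist ((p : ℝ) / n, (q : ℝ) / n) x = M / n := by
    rw [dist_comm, Prod.dist_eq, Real.dist_eq, Real.dist_eq, key, key, hM,
      max_div_div_right (by linarith)]
  have hmin : min |x.1 - p / n| |x.2 - q / n| = m / n := by
    rw [key, key, hm, min_div_div_right (by linarith)]
  by_cases hA : n * M ^ 2 ≤ c'
  · have hex : ∃ k : ℕ, (n : ℝ) ^ 3 * rho R k ^ 2 ≤ 1 / 64 := by
      obtain ⟨k, hk⟩ := pow_unbounded_of_one_lt (64 * (n : ℝ) ^ 3) (show (1 : ℝ) < R by linarith)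
      refine ⟨k, ?_⟩
      have h1 : (1 : ℝ) ≤ (R : ℝ) ^ k := one_le_pow₀ (by linarith)
      rw [rho, inv_pow, ← div_eq_mul_inv, div_le_div_iff₀ (by positivity) (by norm_num)]
      nlinarith
    have hk0 : Nat.find hex ≠ 0 := by
      intro h
      have h1 := Nat.find_spec hex
      rw [h, rho_zero] at h1
      have : (1 : ℝ) ≤ (n : ℝ) ^ 3 := one_le_pow₀ hn0
      linarith
    obtain ⟨k, hk⟩ := Nat.exists_eq_succ_of_ne_zero hk0
    have h1 := Nat.find_spec hex
    have h2 := Nat.find_min hex (show k < Nat.find hex by omega)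
    rw [hk] at h1
    rw [not_le] at h2
    have h3 : M / n ≤ rho R (k + 1 + 1) := by
      apply le_of_sq_le_sq _ (rho_pos hR _).le
      have e1 : rho R k = (R : ℝ) ^ 2 * rho R (k + 1 + 1) := by
        rw [← rho_succ hR k, ← rho_succ hR (k + 1)]
        ring
      rw [e1] at h2
      rw [hc', le_div_iff₀ (by positivity)] at hA
      rw [div_pow, div_le_iff₀ (by positivity)]
      apply le_of_mul_le_mul_left _ (show (0 : ℝ) < n * (64 * (R : ℝ) ^ 4) by positivity)
      nlinarith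
    have h4 : ((p : ℝ) / n, (q : ℝ) / n) ∈ lowPts (z (k + 1)) (rho R (k + 1)) := by
      refine ⟨n, p, q, hn, h1, rfl, ?_⟩
      have t1 := dist_triangle ((p : ℝ) / n, (q : ℝ) / n) x (z (k + 1))
      have t2 := hxz (k + 1)
      have t3 := rho_le hR (k + 1)
      linarith
    rw [← hdist] at h3
    refine hgame (k + 1) (k + 1 + 1) (by omega) _ ?_
      (Measure.le_add_right (Measure.le_add_left le_rfl))
    obtain ⟨ha, hl⟩ := hae (k + 1) (z (k + 1))
    rcases hl with hl | hl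
    · exact (ball_Hs ha (hl _ h4) h3).trans subset_union_left
    · exact (ball_Vs ha (hl _ h4) h3).trans subset_union_right
  rw [not_le] at hA
  have hMpos : 0 < M := by
    rcases hM0.eq_or_lt with h | h
    · rw [← h] at hA
      linarith
    · exact h
  obtain ⟨k, hk1, hk2⟩ := exists_nat_pow_near_of_lt_one (x := M / n) (y := (R : ℝ)⁻¹)
    (by positivity) (by rw [div_le_one (by linarith)]; linarith) (by positivity)
    (inv_lt_one_of_one_lt₀ (by linarith))
  rw [inv_pow] at hk1 hk2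
  change rho R (k + 1) < _ at hk1
  change _ ≤ rho R k at hk2
  have p0 := rho_pos hR k
  have p1 := rho_pos hR (k + 1)
  have hex : ∃ j : ℕ, (n : ℝ) ^ 3 * rho R k ^ 2 ≤ c * θ ^ j := by
    obtain ⟨j, hj⟩ := pow_unbounded_of_one_lt ((n : ℝ) ^ 3 * rho R k ^ 2 / c)
      (show (1 : ℝ) < θ by linarith)
    rw [div_lt_iff₀ hc0] at hj
    exact ⟨j, by linarith⟩
  have hj : j0 < Nat.find hex := by
    rw [Nat.lt_find_iff]
    intro j hj
    rw [not_le]
    have t1 : c * θ ^ j ≤ c * θ ^ j0 :=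
      mul_le_mul_of_nonneg_left (pow_le_pow_right₀ (by linarith) hj) hc0.le
    rw [div_le_iff₀ (by linarith)] at hk2
    have t2 : n * M ^ 2 ≤ n * (rho R k * n) ^ 2 := by gcongr
    nlinarith
  obtain ⟨i, hi⟩ : ∃ i, Nat.find hex = j0 + (i + 1) := ⟨Nat.find hex - j0 - 1, by omega⟩
  have h1 := Nat.find_spec hex
  have h2 := Nat.find_min hex (show j0 + i < Nat.find hex by omega)
  rw [hi] at h1
  rw [not_le] at h2
  have hmem : (n, p, q) ∈ grp c (z k) (rho R k) (κ ^ (j0 + (i + 1))) := by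
    refine ⟨hn, ?_, ?_, x, hxz k, bad⟩
    · push_cast
      rw [← pow_mul, mul_comm _ 2, pow_mul]
      exact h1
    · have t1 := dist_triangle ((p : ℝ) / n, (q : ℝ) / n) x (z k)
      have t2 := hxz k
      simp only
      linarith
  have hratio : m / M ≤ rho R (j0 + (i + 1)) := by
    have hRs : 0 < (R : ℝ) ^ s := Real.rpow_pos_of_pos (by linarith) s
    have t0 : rho R (j0 + (i + 1)) ^ s = (((R : ℝ) ^ s) ^ (j0 + (i + 1)))⁻¹ := by
      rw [rho, Real.inv_rpow (by positivity), ← Real.rpow_natCast, ← Real.rpow_natCast,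
        ← Real.rpow_mul (by linarith), ← Real.rpow_mul (by linarith), mul_comm]
    have t1 : c * θ ^ (j0 + i) ≤ (R : ℝ) ^ 2 * (n * M ^ 2) := by
      rw [lt_div_iff₀ (by linarith)] at hk1
      rw [← rho_succ hR k] at h2
      have : n * (rho R (k + 1) * n) ^ 2 ≤ n * M ^ 2 := by gcongr
      have := mul_le_mul_of_nonneg_left this (show (0 : ℝ) ≤ (R : ℝ) ^ 2 by positivity)
      nlinarith
    have t2 : (R : ℝ) ^ 2 * ((R : ℝ) ^ s) ^ (j0 + (i + 1)) ≤ θ ^ (j0 + i) := by
      have u1 : ((R : ℝ) ^ s) ^ (j0 + (i + 1)) ≤ (θ / 2) ^ (j0 + (i + 1)) := by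
        gcongr
        linarith
      have u2 : (2 : ℝ) ^ j0 ≤ 2 ^ (j0 + (i + 1)) := pow_le_pow_right₀ (by norm_num) (by omega)
      have u3 : (R : ℝ) ^ 2 * θ ≤ (R : ℝ) ^ 3 := by nlinarith
      calc _ ≤ (R : ℝ) ^ 2 * (θ / 2) ^ (j0 + (i + 1)) := by gcongr
        _ = θ ^ (j0 + i) * ((R : ℝ) ^ 2 * θ / 2 ^ (j0 + (i + 1))) := by
            rw [div_pow, ← add_assoc, pow_succ θ]
            ring
        _ ≤ θ ^ (j0 + i) * 1 := by
            gcongr
            rw [div_le_one (by positivity)]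
            linarith
        _ = _ := mul_one _
    rw [mul_assoc, mix_eq hm0 hMpos] at hlt
    apply le_of_lt
    rw [← Real.rpow_lt_rpow_iff (by positivity) (rho_pos hR _).le hs, t0, inv_eq_one_div,
      lt_div_iff₀ (by positivity)]
    have t3 : c * ((R : ℝ) ^ s) ^ (j0 + (i + 1)) ≤ n * M ^ 2 := by
      apply le_of_mul_le_mul_left _ (show (0 : ℝ) < (R : ℝ) ^ 2 by positivity)
      have := mul_le_mul_of_nonneg_left t2 hc0.le
      nlinarith
    apply lt_of_mul_lt_mul_left _ (show (0 : ℝ) ≤ n * M ^ 2 by positivity)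
    have t4 := mul_lt_mul_of_pos_right hlt
      (show (0 : ℝ) < ((R : ℝ) ^ s) ^ (j0 + (i + 1)) by positivity)
    nlinarith
  have h3 : min |x.1 - p / n| |x.2 - q / n| ≤ rho R (k + (j0 + (i + 1))) := by
    rw [hmin, rho_add]
    calc m / n = M / n * (m / M) := by field_simp
      _ ≤ _ := by gcongr
  refine hgame k (k + (j0 + (i + 1))) (by omega) _ (ball_cross h3) (Measure.le_add_left ?_)
  refine le_trans ?_ (Measure.le_sum _ (i + 1))
  exact Measure.le_sum (fun t : grp c (z k) (rho R k) (κ ^ (j0 + (i + 1))) =>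
      (4 : ℝ≥0∞) ^ (k + (j0 + (i + 1))) • volume.restrict
        (Hs 0 ((t.1.2.2 : ℝ) / t.1.1) (2 * rho R (k + (j0 + (i + 1)))) ∪
          Vs 0 ((t.1.2.1 : ℝ) / t.1.1) (2 * rho R (k + (j0 + (i + 1)))))) ⟨(n, p, q), hmem⟩

end Pool.Agent.P.MP_2cf87a_nt
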