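import Pool.Agent.P.MP_2cf87a_nt.Avoid

/-!
Lower bound for the Hausdorff dimension.
-/

open MeasureTheory Set Metric
open scoped ENNReal NNReal

namespace Pool.Agent.P.MP_2cf87a_nt

/-- The set in the plane with the sup metric. -/
def Bs (s : ℝ) : Set (ℝ × ℝ) := {x | ∃ c : ℝ, 0 < c ∧ ∀ n : ℕ, 1 ≤ n → c ≤ Fs s n x}

lemma cover_level {R : ℕ} (hR : 4 ≤ R) {d : ℝ} (hd : 0 < d) (hRd : 4 * (R : ℝ) ^ d ≤ (R : ℝ) ^ 2)
    (t : Set (ℝ × ℝ)) (ht : ediam t ≤ ENNReal.ofReal (rho R 1)) {η : ℝ} (hη : 0 < η) :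
    ∃ (u : ℝ × ℝ) (l : ℕ), 0 < l ∧ t ⊆ closedBall u (rho R l) ∧
      ENNReal.ofReal (4 ^ l * rho R l ^ 2) ≤
        ENNReal.ofReal ((R : ℝ) ^ d) * (⨆ _ : t.Nonempty, ediam t ^ d) + ENNReal.ofReal η := by
  have hR0 : 0 < R := by omega
  have hRr : (4 : ℝ) ≤ R := by exact_mod_cast hR
  by_cases h0 : ediam t = 0
  · have hsub : t.Subsingleton := ediam_eq_zero_iff.mp h0
    obtain ⟨l, hl⟩ := exists_pow_lt_of_lt_one hη (show (1 / 4 : ℝ) < 1 by norm_num)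
    have h1 : (4 : ℝ) ^ (l + 1) * rho R (l + 1) ^ 2 ≤ η := by
      have e : (4 : ℝ) ^ (l + 1) * rho R (l + 1) ^ 2 = (4 / (R : ℝ) ^ 2) ^ (l + 1) := by
        rw [rho, div_pow, inv_pow, ← pow_mul, ← pow_mul, mul_comm (l + 1) 2, div_eq_mul_inv]
      have e2 : 4 / (R : ℝ) ^ 2 ≤ 1 / 4 := by
        rw [div_le_div_iff₀ (by positivity) (by norm_num)]
        nlinarith
      rw [e]
      calc (4 / (R : ℝ) ^ 2) ^ (l + 1) ≤ (1 / 4) ^ (l + 1) := by gcongr
        _ ≤ (1 / 4) ^ l := pow_le_pow_of_le_one (by norm_num) (by norm_num) (by omega)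
        _ ≤ η := hl.le
    rcases hsub.eq_empty_or_singleton with rfl | ⟨u, rfl⟩
    · exact ⟨0, l + 1, by omega, empty_subset _, (ENNReal.ofReal_le_ofReal h1).trans le_add_self⟩
    · refine ⟨u, l + 1, by omega, ?_, (ENNReal.ofReal_le_ofReal h1).trans le_add_self⟩
      rw [singleton_subset_iff]
      exact mem_closedBall_self (rho_pos hR0 _).le
  have hne : t.Nonempty := by
    by_contra hh
    rw [not_nonempty_iff_eq_empty] at hh
    rw [hh] at h0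
    simp at h0
  have htop : ediam t ≠ ⊤ := ne_top_of_le_ne_top ENNReal.ofReal_ne_top ht
  set D : ℝ := (ediam t).toReal with hD
  have hD0 : 0 < D := ENNReal.toReal_pos h0 htop
  have hD1 : D ≤ rho R 1 := ENNReal.toReal_le_of_le_ofReal (rho_pos hR0 1).le ht
  have hD2 : D ≤ 1 := hD1.trans ((rho_le hR0 0).trans (rho_zero R).le)
  obtain ⟨l, hl1, hl2⟩ := exists_nat_pow_near_of_lt_one (x := D) (y := (R : ℝ)⁻¹) hD0 hD2
    (by positivity) (inv_lt_one_of_one_lt₀ (by linarith))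
  rw [inv_pow] at hl1 hl2
  change rho R (l + 1) < _ at hl1
  change _ ≤ rho R l at hl2
  have hl0 : 0 < l := by
    rcases Nat.eq_zero_or_pos l with rfl | h
    · linarith
    · exact h
  obtain ⟨u, hu⟩ := hne
  refine ⟨u, l, hl0, fun y hy => ?_, le_trans ?_ le_self_add⟩
  · rw [mem_closedBall, dist_edist]
    exact (ENNReal.toReal_mono htop (edist_le_ediam_of_mem hy hu)).trans hl2
  rw [iSup_pos ⟨u, hu⟩, ← ENNReal.ofReal_toReal htop, ← hD, ENNReal.ofReal_rpow_of_pos hD0,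
    ← ENNReal.ofReal_mul (by positivity), ← Real.mul_rpow (by positivity) hD0.le]
  apply ENNReal.ofReal_le_ofReal
  have hRdp : 0 < (R : ℝ) ^ d := Real.rpow_pos_of_pos (by linarith) d
  have e1 : rho R l ^ d = (((R : ℝ) ^ d) ^ l)⁻¹ := by
    rw [rho, Real.inv_rpow (by positivity), ← Real.rpow_natCast, ← Real.rpow_natCast,
      ← Real.rpow_mul (by linarith), ← Real.rpow_mul (by linarith), mul_comm]
  calc (4 : ℝ) ^ l * rho R l ^ 2 = (4 / (R : ℝ) ^ 2) ^ l := by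
        rw [rho, div_pow, inv_pow, ← pow_mul, ← pow_mul, mul_comm l 2, div_eq_mul_inv]
    _ ≤ (((R : ℝ) ^ d)⁻¹) ^ l := by
        gcongr
        rw [inv_eq_one_div, div_le_div_iff₀ (by positivity) hRdp]
        linarith
    _ = rho R l ^ d := by rw [e1, inv_pow]
    _ ≤ _ := by
        apply Real.rpow_le_rpow (rho_pos hR0 l).le _ hd.le
        rw [← rho_succ hR0 l]
        gcongr

lemma measure_ne_zero {s d : ℝ} (hs : 0 < s) (hd : 0 < d) {κ R : ℕ} (hRκ : R = 8 * κ ^ 2)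
    (hκ : 4 ≤ κ) (hsR : 16 * (R : ℝ) ^ s ≤ R) (hRd : 4 * (R : ℝ) ^ d ≤ (R : ℝ) ^ 2) :
    Measure.hausdorffMeasure d (Bs s) ≠ 0 := by
  have hR4 : 4 ≤ R := by nlinarith
  have hR0 : 0 < R := by omega
  obtain ⟨c, hc, hav⟩ := avoid hs hRκ hκ hsR
  intro h0
  rw [Measure.hausdorffMeasure_apply] at h0
  simp only [ENNReal.iSup_eq_zero] at h0
  have hRdp : 0 < (R : ℝ) ^ d := Real.rpow_pos_of_pos (by positivity) d
  have h1 := h0 (ENNReal.ofReal (rho R 1)) (ENNReal.ofReal_pos.mpr (rho_pos hR0 1))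
  have h2 := h1.trans_lt (ENNReal.ofReal_pos.mpr (show 0 < 1 / 128 / (R : ℝ) ^ d by positivity))
  simp only [iInf_lt_iff] at h2
  obtain ⟨t, hcov, hdiam, hsum⟩ := h2
  choose u l hl hsub hle using fun i => cover_level hR4 hd hRd (t i) (hdiam i)
    (show (0 : ℝ) < 1 / 128 / 2 / 2 ^ i by positivity)
  obtain ⟨x, hx1, hx2⟩ := hav u l hl (by
    refine (ENNReal.tsum_le_tsum hle).trans ?_
    rw [ENNReal.tsum_add, ENNReal.tsum_mul_left, tsum_half _ (by norm_num)]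
    refine (add_le_add_left (mul_le_mul_right hsum.le _) _).trans (le_of_eq ?_)
    rw [← ENNReal.ofReal_mul hRdp.le, ← ENNReal.ofReal_add (by positivity) (by norm_num)]
    congr 1
    field_simp
    norm_num)
  obtain ⟨i, hi⟩ := mem_iUnion.mp (hcov ⟨c, hc, hx1⟩)
  exact absurd (mem_closedBall.mp (hsub i hi)) (not_le.mpr (hx2 i))

lemma exists_param {a b : ℝ} (ha : 0 < a) (hb : 0 < b) :
    ∃ κ : ℕ, 4 ≤ κ ∧ 16 ≤ ((8 * κ ^ 2 : ℕ) : ℝ) ^ a ∧ 4 ≤ ((8 * κ ^ 2 : ℕ) : ℝ) ^ b := by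
  have h0 : Filter.Tendsto (fun κ : ℕ => ((8 * κ ^ 2 : ℕ) : ℝ)) Filter.atTop Filter.atTop := by
    apply tendsto_natCast_atTop_atTop.comp
    refine Filter.tendsto_atTop_mono (fun κ => ?_) Filter.tendsto_id
    simp only [id]
    nlinarith
  have h1 := ((tendsto_rpow_atTop ha).comp h0).eventually_ge_atTop 16
  have h2 := ((tendsto_rpow_atTop hb).comp h0).eventually_ge_atTop 4
  exact ((Filter.eventually_ge_atTop 4).and (h1.and h2)).exists

theorem two_le_dimH {s : ℝ} (hs : 0 < s) (hs1 : s < 1) : 2 ≤ dimH (Bs s) := by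
  apply ENNReal.le_of_forall_nnreal_lt
  intro d hd
  rcases eq_or_ne d 0 with rfl | hd0
  · simp
  have hd2 : (d : ℝ) < 2 := by exact_mod_cast hd
  have hdp : (0 : ℝ) < d := by positivity
  obtain ⟨κ, hκ, h1, h2⟩ := exists_param (sub_pos.mpr hs1) (sub_pos.mpr hd2)
  set R : ℕ := 8 * κ ^ 2 with hR
  have hR0 : (0 : ℝ) < R := by
    have : 0 < R := by rw [hR]; positivity
    exact_mod_cast this
  apply le_dimH_of_hausdorffMeasure_ne_zero
  apply measure_ne_zero hs hdp hR hκ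
  · rw [Real.rpow_sub hR0, Real.rpow_one, le_div_iff₀ (Real.rpow_pos_of_pos hR0 _)] at h1
    exact h1
  · rw [Real.rpow_sub hR0, Real.rpow_two, le_div_iff₀ (Real.rpow_pos_of_pos hR0 _)] at h2
    exact h2

end Pool.Agent.P.MP_2cf87a_nt
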