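import Mathlib

/-!
A potential game on nested squares of the plane.
-/

open MeasureTheory Set Metric
open scoped ENNReal

namespace Pool.Agent.P.MP_2cf87a_nt

/-- Side length at level `k`. -/
noncomputable def rho (R : ℕ) (k : ℕ) : ℝ := ((R : ℝ) ^ k)⁻¹

/-- Half-open square with corner `z` and side `r`. -/
def Sq (z : ℝ × ℝ) (r : ℝ) : Set (ℝ × ℝ) := Ico z.1 (z.1 + r) ×ˢ Ico z.2 (z.2 + r)

lemma rho_pos {R : ℕ} (hR : 0 < R) (k : ℕ) : 0 < rho R k := by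
  unfold rho
  positivity

lemma rho_succ {R : ℕ} (hR : 0 < R) (k : ℕ) : R * rho R (k + 1) = rho R k := by
  unfold rho
  have : (R : ℝ) ≠ 0 := by positivity
  rw [pow_succ]
  field_simp

lemma rho_add (R k j : ℕ) : rho R (k + j) = rho R k * rho R j := by
  unfold rho
  rw [pow_add, mul_inv]

lemma rho_zero (R : ℕ) : rho R 0 = 1 := by simp [rho]

lemma measurable_Sq (z : ℝ × ℝ) (r : ℝ) : MeasurableSet (Sq z r) :=
  measurableSet_Ico.prod measurableSet_Ico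

lemma vol_Sq (z : ℝ × ℝ) {r : ℝ} (hr : 0 ≤ r) : volume (Sq z r) = ENNReal.ofReal (r ^ 2) := by
  rw [Sq, Measure.volume_eq_prod, Measure.prod_prod, Real.volume_Ico, Real.volume_Ico,
    ← ENNReal.ofReal_mul (by linarith)]
  congr 1
  ring

lemma Ico_disj {x r : ℝ} (hr : 0 < r) {a b : ℕ} (h : a ≠ b) :
    Disjoint (Ico (x + a * r) (x + a * r + r)) (Ico (x + b * r) (x + b * r + r)) := by
  rw [Set.disjoint_left]
  intro t ht1 ht2
  rcases lt_or_gt_of_ne h with h | h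
  · have : (a : ℝ) + 1 ≤ b := by exact_mod_cast h
    nlinarith [ht1.2, ht2.1]
  · have : (b : ℝ) + 1 ≤ a := by exact_mod_cast h
    nlinarith [ht1.1, ht2.2]

lemma pigeon {R : ℕ} (hR : 0 < R) (μ : Measure (ℝ × ℝ)) (z : ℝ × ℝ) {r : ℝ} (hr : 0 < r) :
    ∃ z' : ℝ × ℝ, (z.1 ≤ z'.1 ∧ z'.1 + r ≤ z.1 + R * r) ∧ (z.2 ≤ z'.2 ∧ z'.2 + r ≤ z.2 + R * r) ∧
      (R : ℝ≥0∞) ^ 2 * μ (Sq z' r) ≤ μ (Sq z (R * r)) := by
  set S : Finset (ℕ × ℕ) := Finset.range R ×ˢ Finset.range R with hS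
  set c : ℕ × ℕ → ℝ × ℝ := fun e => (z.1 + e.1 * r, z.2 + e.2 * r) with hc
  have hne : S.Nonempty := ⟨(0, 0), by simp [hS, hR]⟩
  have hb : ∀ e ∈ S, (z.1 ≤ (c e).1 ∧ (c e).1 + r ≤ z.1 + R * r) ∧
      (z.2 ≤ (c e).2 ∧ (c e).2 + r ≤ z.2 + R * r) := by
    intro e he
    simp only [hS, Finset.mem_product, Finset.mem_range] at he
    have h1 : (e.1 : ℝ) + 1 ≤ R := by exact_mod_cast he.1
    have h2 : (e.2 : ℝ) + 1 ≤ R := by exact_mod_cast he.2
    have h3 : (0 : ℝ) ≤ e.1 := Nat.cast_nonneg _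
    have h4 : (0 : ℝ) ≤ e.2 := Nat.cast_nonneg _
    simp only [hc]
    refine ⟨⟨?_, ?_⟩, ?_, ?_⟩ <;> nlinarith
  obtain ⟨e, he, hmin⟩ := Finset.exists_min_image S (fun e => μ (Sq (c e) r)) hne
  refine ⟨c e, (hb e he).1, (hb e he).2, ?_⟩
  have h1 : S.card • μ (Sq (c e) r) ≤ ∑ e' ∈ S, μ (Sq (c e') r) :=
    Finset.card_nsmul_le_sum S _ _ hmin
  have h2 : S.card = R ^ 2 := by simp [hS, sq]
  rw [h2, nsmul_eq_mul, Nat.cast_pow] at h1
  refine h1.trans ?_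
  rw [← measure_biUnion_finset _ fun e _ => measurable_Sq _ _]
  · apply measure_mono
    intro y hy
    simp only [mem_iUnion] at hy
    obtain ⟨e', he', hy⟩ := hy
    obtain ⟨⟨a1, a2⟩, a3, a4⟩ := hb e' he'
    obtain ⟨⟨b1, b2⟩, b3, b4⟩ := hy
    exact ⟨⟨by linarith, by linarith⟩, by linarith, by linarith⟩
  · intro e1 _ e2 _ hne
    simp only [Function.onFun, Sq, hc]
    rw [Set.disjoint_prod]
    by_cases h : e1.1 = e2.1
    · right
      exact Ico_disj hr fun h' => hne (Prod.ext h h')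
    · left
      exact Ico_disj hr h

lemma nested_limit {a r : ℕ → ℝ} (hr : ∀ k, 0 ≤ r k) (h1 : ∀ k, a k ≤ a (k + 1))
    (h2 : ∀ k, a (k + 1) + r (k + 1) ≤ a k + r k) : ∃ x, ∀ k, a k ≤ x ∧ x ≤ a k + r k := by
  have m1 : Monotone a := monotone_nat_of_le_succ h1
  have m2 : Antitone fun k => a k + r k := antitone_nat_of_succ_le h2
  have key : ∀ m k, a m ≤ a k + r k := by
    intro m k
    have e1 := m1 (le_max_left m k)
    have e2 := m2 (le_max_right m k)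
    have e3 := hr (max m k)
    simp only at e2
    linarith
  refine ⟨⨆ m, a m, fun k => ⟨le_ciSup ⟨a 0 + r 0, ?_⟩ k, ciSup_le fun m => key m k⟩⟩
  rintro _ ⟨m, rfl⟩
  exact key m 0

theorem game {R : ℕ} (hR : 0 < R) (ν : ℕ → ℝ × ℝ → Measure (ℝ × ℝ))
    (h : ∀ k z, ν k z (Sq z (rho R k)) ≤ 4 ^ k * ENNReal.ofReal (rho R k ^ 2)) :
    ∃ (x : ℝ × ℝ) (z : ℕ → ℝ × ℝ), (∀ k, dist x (z k) ≤ rho R k) ∧
      ∀ k l, k < l → ∀ T : Set (ℝ × ℝ), closedBall x (rho R l) ⊆ T →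
        ¬ ((4 : ℝ≥0∞) ^ l • volume.restrict T ≤ ν k (z k)) := by
  choose f hf using fun (k : ℕ) (μ : Measure (ℝ × ℝ)) (z : ℝ × ℝ) =>
    pigeon hR μ z (rho_pos hR (k + 1))
  simp only [rho_succ hR] at hf
  let st : ℕ → (ℝ × ℝ) × Measure (ℝ × ℝ) := fun k => Nat.rec ((0, 0), ν 0 (0, 0))
    (fun k p => (f k p.2 p.1, p.2 + ν (k + 1) (f k p.2 p.1))) k
  set z : ℕ → ℝ × ℝ := fun k => (st k).1 with hz
  set L : ℕ → Measure (ℝ × ℝ) := fun k => (st k).2 with hL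
  have z1 : ∀ k, z (k + 1) = f k (L k) (z k) := fun k => rfl
  have L0 : L 0 = ν 0 (z 0) := rfl
  have L1 : ∀ k, L (k + 1) = L k + ν (k + 1) (z (k + 1)) := fun k => rfl
  have hRe : (R : ℝ≥0∞) ^ 2 ≠ 0 := pow_ne_zero _ (by exact_mod_cast hR.ne')
  have hRt : (R : ℝ≥0∞) ^ 2 ≠ ⊤ := ENNReal.pow_ne_top (ENNReal.natCast_ne_top R)
  have rs : ∀ k, ENNReal.ofReal (rho R k ^ 2)
      = (R : ℝ≥0∞) ^ 2 * ENNReal.ofReal (rho R (k + 1) ^ 2) := by
    intro k
    rw [← rho_succ hR k, mul_pow, ENNReal.ofReal_mul (by positivity), ENNReal.ofReal_pow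
      (Nat.cast_nonneg _), ENNReal.ofReal_natCast]
  have step : ∀ k, L k (Sq (z k) (rho R k)) ≤ 2 * 4 ^ k * ENNReal.ofReal (rho R k ^ 2) →
      L k (Sq (z (k + 1)) (rho R (k + 1))) ≤ 2 * 4 ^ k * ENNReal.ofReal (rho R (k + 1) ^ 2) := by
    intro k hk
    have h1 := (hf k (L k) (z k)).2.2.trans hk
    rw [← z1, rs k, mul_left_comm] at h1
    exact (ENNReal.mul_le_mul_iff_right hRe hRt).mp h1
  have inv : ∀ k, L k (Sq (z k) (rho R k)) ≤ 2 * 4 ^ k * ENNReal.ofReal (rho R k ^ 2) := by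
    intro k
    induction k with
    | zero =>
      rw [L0]
      refine (h 0 _).trans ?_
      gcongr
      norm_num
    | succ k ih =>
      rw [L1, Measure.add_apply]
      refine (add_le_add (step k ih) (h (k + 1) _)).trans ?_
      rw [← add_mul]
      gcongr
      rw [pow_succ]
      calc (2 : ℝ≥0∞) * 4 ^ k + 4 ^ k * 4 = 6 * 4 ^ k := by ring
        _ ≤ 8 * 4 ^ k := by gcongr; norm_num
        _ = _ := by ring
  have mono : ∀ k i, i ≤ k → ν i (z i) ≤ L k := by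
    intro k
    induction k with
    | zero =>
      intro i hi
      obtain rfl : i = 0 := by omega
      rw [L0]
    | succ k ih =>
      intro i hi
      rw [L1]
      rcases hi.lt_or_eq with hi | rfl
      · exact (ih i (by omega)).trans (Measure.le_add_right le_rfl)
      · exact Measure.le_add_left le_rfl
  obtain ⟨x1, hx1⟩ := nested_limit (a := fun k => (z k).1) (r := rho R)
    (fun k => (rho_pos hR k).le) (fun k => (hf k (L k) (z k)).1.1)
    (fun k => (hf k (L k) (z k)).1.2)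
  obtain ⟨x2, hx2⟩ := nested_limit (a := fun k => (z k).2) (r := rho R)
    (fun k => (rho_pos hR k).le) (fun k => (hf k (L k) (z k)).2.1.1)
    (fun k => (hf k (L k) (z k)).2.1.2)
  refine ⟨(x1, x2), z, fun k => ?_, ?_⟩
  · rw [Prod.dist_eq, max_le_iff, Real.dist_eq, Real.dist_eq, abs_le, abs_le]
    have := hx1 k
    have := hx2 k
    have := rho_pos hR k
    refine ⟨⟨?_, ?_⟩, ?_, ?_⟩ <;> simp only <;> linarith
  intro k l hkl T hT hle
  obtain ⟨m, rfl⟩ : ∃ m, l = m + 1 := ⟨l - 1, by omega⟩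
  have hsub : Sq (z (m + 1)) (rho R (m + 1)) ⊆ T := by
    refine Subset.trans ?_ hT
    rintro y ⟨⟨b1, b2⟩, b3, b4⟩
    rw [mem_closedBall, Prod.dist_eq, max_le_iff, Real.dist_eq, Real.dist_eq, abs_le, abs_le]
    have := hx1 (m + 1)
    have := hx2 (m + 1)
    refine ⟨⟨?_, ?_⟩, ?_, ?_⟩ <;> simp only <;> linarith
  have h1 := (Measure.le_iff'.mp (hle.trans (mono m k (by omega)))
    (Sq (z (m + 1)) (rho R (m + 1)))).trans (step m (inv m))
  rw [Measure.smul_apply, Measure.restrict_apply (measurable_Sq _ _), inter_eq_left.mpr hsub,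
    vol_Sq _ (rho_pos hR _).le, smul_eq_mul] at h1
  have h0 : ENNReal.ofReal (rho R (m + 1) ^ 2) ≠ 0 := by
    rw [Ne, ENNReal.ofReal_eq_zero, not_le]
    exact pow_pos (rho_pos hR _) _
  have h2 := (ENNReal.mul_le_mul_iff_left h0 ENNReal.ofReal_ne_top).mp h1
  rw [pow_succ, mul_comm] at h2
  have h3 := (ENNReal.mul_le_mul_iff_left (pow_ne_zero m (by norm_num))
    (ENNReal.pow_ne_top (by norm_num))).mp h2
  norm_num at h3

end Pool.Agent.P.MP_2cf87a_nt
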