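import Pool.Agent.P.MP_2cf87a_nt.Game

/-!
Strips, the simplex lemma and the packing bound for rational points.
-/

open MeasureTheory Set Metric
open scoped ENNReal

namespace Pool.Agent.P.MP_2cf87a_nt

/-- Strip around the line `y = a x + e`. -/
def Hs (a e w : ℝ) : Set (ℝ × ℝ) := {y | |y.2 - (a * y.1 + e)| ≤ w}

/-- Strip around the line `x = a y + e`. -/
def Vs (a e w : ℝ) : Set (ℝ × ℝ) := {y | |y.1 - (a * y.2 + e)| ≤ w}

lemma measurable_Hs (a e w : ℝ) : MeasurableSet (Hs a e w) :=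
  (isClosed_le (by fun_prop) (by fun_prop)).measurableSet

lemma vol_Hs (a e : ℝ) {w r : ℝ} (hw : 0 ≤ w) (z : ℝ × ℝ) :
    volume (Sq z r ∩ Hs a e w) ≤ ENNReal.ofReal (2 * w * r) := by
  have hsub : Sq z r ∩ Hs a e w ⊆ (Ico z.1 (z.1 + r) ×ˢ univ) ∩ Hs a e w :=
    inter_subset_inter_left _ (prod_mono le_rfl (subset_univ _))
  refine (measure_mono hsub).trans ?_
  rw [Measure.volume_eq_prod,
    Measure.prod_apply ((measurableSet_Ico.prod MeasurableSet.univ).inter (measurable_Hs a e w))]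
  have : ∀ x : ℝ, volume (Prod.mk x ⁻¹' ((Ico z.1 (z.1 + r) ×ˢ univ) ∩ Hs a e w))
      ≤ (Ico z.1 (z.1 + r)).indicator (fun _ => ENNReal.ofReal (2 * w)) x := by
    intro x
    by_cases hx : x ∈ Ico z.1 (z.1 + r)
    · rw [indicator_of_mem hx]
      have : Prod.mk x ⁻¹' ((Ico z.1 (z.1 + r) ×ˢ univ) ∩ Hs a e w)
          ⊆ Icc (a * x + e - w) (a * x + e + w) := by
        intro y hy
        have h0 : |y - (a * x + e)| ≤ w := hy.2
        have h := abs_le.mp h0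
        constructor <;> linarith [h.1, h.2]
      refine (measure_mono this).trans (le_of_eq ?_)
      rw [Real.volume_Icc]
      congr 1
      ring
    · rw [indicator_of_notMem hx]
      have : Prod.mk x ⁻¹' ((Ico z.1 (z.1 + r) ×ˢ univ) ∩ Hs a e w) = ∅ := by
        ext y
        simp only [mem_preimage, mem_inter_iff, mem_prod, mem_empty_iff_false, iff_false]
        exact fun h => hx h.1.1
      rw [this, measure_empty]
  refine (lintegral_mono this).trans (le_of_eq ?_)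
  rw [lintegral_indicator_const measurableSet_Ico, Real.volume_Ico,
    ← ENNReal.ofReal_mul (by linarith)]
  congr 1
  ring

lemma vol_Vs (a e : ℝ) {w r : ℝ} (hw : 0 ≤ w) (z : ℝ × ℝ) :
    volume (Sq z r ∩ Vs a e w) ≤ ENNReal.ofReal (2 * w * r) := by
  have h : Sq z r ∩ Vs a e w = Prod.swap ⁻¹' (Sq z.swap r ∩ Hs a e w) := by
    ext y
    simp only [Sq, Vs, Hs, mem_inter_iff, mem_prod, mem_preimage, Prod.fst_swap, Prod.snd_swap,
      mem_ofPred_eq]
    tauto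
  rw [h, Measure.volume_eq_prod,
    Measure.measurePreserving_swap.measure_preimage
      ((measurable_Sq _ _).inter (measurable_Hs _ _ _)).nullMeasurableSet]
  exact vol_Hs a e hw _

lemma vol_cross (a e : ℝ) (a' e' : ℝ) {w r : ℝ} (hw : 0 ≤ w) (hr : 0 ≤ r) (z : ℝ × ℝ) :
    volume (Sq z r ∩ (Hs a e w ∪ Vs a' e' w)) ≤ ENNReal.ofReal (4 * w * r) := by
  rw [inter_union_distrib_left]
  refine (measure_union_le _ _).trans ((add_le_add (vol_Hs a e hw z) (vol_Vs a' e' hw z)).trans ?_)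
  rw [← ENNReal.ofReal_add (by positivity) (by positivity)]
  apply le_of_eq
  congr 1
  ring

/-- A set all of whose triples are collinear lies on a line of slope at most one with respect to
one of the axes. -/
lemma exists_line (S : Set (ℝ × ℝ))
    (h : ∀ A ∈ S, ∀ B ∈ S, ∀ D ∈ S, (B.1 - A.1) * (D.2 - A.2) = (B.2 - A.2) * (D.1 - A.1)) :
    ∃ a e : ℝ, |a| ≤ 1 ∧ ((∀ D ∈ S, D.2 = a * D.1 + e) ∨ (∀ D ∈ S, D.1 = a * D.2 + e)) := by
  by_cases hS : S.Subsingleton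
  · rcases hS.eq_empty_or_singleton with rfl | ⟨A, rfl⟩
    · exact ⟨0, 0, by simp, Or.inl (by simp)⟩
    · exact ⟨0, A.2, by simp, Or.inl (by simp)⟩
  obtain ⟨A, hA, B, hB, hAB⟩ := not_subsingleton_iff.mp hS
  by_cases hc : |B.2 - A.2| ≤ |B.1 - A.1|
  · have h0 : B.1 - A.1 ≠ 0 := by
      intro h0
      rw [h0, abs_zero, abs_nonpos_iff] at hc
      exact hAB (Prod.ext (by linarith) (by linarith))
    refine ⟨(B.2 - A.2) / (B.1 - A.1), A.2 - (B.2 - A.2) / (B.1 - A.1) * A.1, ?_, Or.inl ?_⟩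
    · rw [abs_div, div_le_one (abs_pos.mpr h0)]
      exact hc
    · intro D hD
      have := h A hA B hB D hD
      field_simp
      linear_combination this
  · rw [not_le] at hc
    have h0 : B.2 - A.2 ≠ 0 := abs_pos.mp ((abs_nonneg _).trans_lt hc)
    refine ⟨(B.1 - A.1) / (B.2 - A.2), A.1 - (B.1 - A.1) / (B.2 - A.2) * A.2, ?_, Or.inr ?_⟩
    · rw [abs_div, div_le_one (abs_pos.mpr h0)]
      exact hc.le
    · intro D hD
      have := h A hA B hB D hD
      field_simp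
      linear_combination -this

/-- The rational points of small height near `z`. -/
def lowPts (z : ℝ × ℝ) (r : ℝ) : Set (ℝ × ℝ) :=
  {D | ∃ (n : ℕ) (p q : ℤ), 1 ≤ n ∧ (n : ℝ) ^ 3 * r ^ 2 ≤ 1 / 64 ∧ D = ((p : ℝ) / n, (q : ℝ) / n) ∧
    dist D z ≤ 2 * r}

/-- The simplex lemma. -/
lemma simplex (z : ℝ × ℝ) {r : ℝ} (hr : 0 < r) :
    ∃ a e : ℝ, |a| ≤ 1 ∧
      ((∀ D ∈ lowPts z r, D.2 = a * D.1 + e) ∨ (∀ D ∈ lowPts z r, D.1 = a * D.2 + e)) := by
  apply exists_line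
  rintro A ⟨n1, p1, q1, a1, b1, eA, c1⟩ B ⟨n2, p2, q2, a2, b2, eB, c2⟩ D
    ⟨n3, p3, q3, a3, b3, eD, c3⟩
  have d1 : dist B A ≤ 4 * r := by linarith [dist_triangle_right B A z]
  have d2 : dist D A ≤ 4 * r := by linarith [dist_triangle_right D A z]
  rw [Prod.dist_eq, max_le_iff, Real.dist_eq, Real.dist_eq] at d1 d2
  set Δ : ℝ := (B.1 - A.1) * (D.2 - A.2) - (B.2 - A.2) * (D.1 - A.1) with hΔ
  have hΔ1 : |Δ| ≤ 32 * r ^ 2 := by
    have t1 : |(B.1 - A.1) * (D.2 - A.2)| ≤ 4 * r * (4 * r) := by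
      rw [abs_mul]
      exact mul_le_mul d1.1 d2.2 (abs_nonneg _) (by positivity)
    have t2 : |(B.2 - A.2) * (D.1 - A.1)| ≤ 4 * r * (4 * r) := by
      rw [abs_mul]
      exact mul_le_mul d1.2 d2.1 (abs_nonneg _) (by positivity)
    have := abs_sub ((B.1 - A.1) * (D.2 - A.2)) ((B.2 - A.2) * (D.1 - A.1))
    nlinarith
  have m1 : (0 : ℝ) < n1 := by exact_mod_cast a1
  have m2 : (0 : ℝ) < n2 := by exact_mod_cast a2
  have m3 : (0 : ℝ) < n3 := by exact_mod_cast a3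
  set d : ℤ := n1 * (p2 * q3 - p3 * q2) - n2 * (p1 * q3 - p3 * q1) + n3 * (p1 * q2 - p2 * q1)
    with hd
  have hdΔ : (d : ℝ) = n1 * n2 * n3 * Δ := by
    rw [hd, hΔ, eA, eB, eD]
    push_cast
    field_simp
    ring
  have hprod : (n1 : ℝ) * n2 * n3 * r ^ 2 ≤ 1 / 64 := by
    apply le_of_pow_le_pow_left₀ (n := 3) (by norm_num) (by norm_num)
    calc ((n1 : ℝ) * n2 * n3 * r ^ 2) ^ 3
        = (n1 ^ 3 * r ^ 2) * (n2 ^ 3 * r ^ 2) * (n3 ^ 3 * r ^ 2) := by ring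
      _ ≤ (1 / 64) * (1 / 64) * (1 / 64) := by gcongr
      _ = _ := by ring
  have hd1 : |(d : ℝ)| < 1 := by
    rw [hdΔ, abs_mul, abs_of_pos (by positivity : (0 : ℝ) < n1 * n2 * n3)]
    calc (n1 : ℝ) * n2 * n3 * |Δ| ≤ n1 * n2 * n3 * (32 * r ^ 2) := by gcongr
      _ = 32 * (n1 * n2 * n3 * r ^ 2) := by ring
      _ < 1 := by linarith
  have hd0 : d = 0 := by
    have : |d| < 1 := by exact_mod_cast hd1
    exact Int.abs_lt_one_iff.mp this
  rw [hd0, Int.cast_zero, eq_comm, mul_eq_zero] at hdΔ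
  rcases hdΔ with h | h
  · exact absurd h (by positivity)
  · linarith

/-- `y` is `c`-badly approximable for all denominators below `n`. -/
def BadTo (c : ℝ) (n : ℕ) (y : ℝ × ℝ) : Prop :=
  ∀ m : ℕ, 1 ≤ m → m < n → ∀ p q : ℤ, c ≤ m * (max |m * y.1 - p| |m * y.2 - q|) ^ 2

/-- Rational points near `z` of bounded height having a badly approximable witness. -/
def grp (c : ℝ) (z : ℝ × ℝ) (r : ℝ) (K : ℕ) : Set (ℕ × ℤ × ℤ) :=
  {t | 1 ≤ t.1 ∧ (t.1 : ℝ) ^ 3 * r ^ 2 ≤ c * (K : ℝ) ^ 2 ∧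
    dist ((t.2.1 : ℝ) / t.1, (t.2.2 : ℝ) / t.1) z ≤ 2 * r ∧ ∃ y, dist y z ≤ r ∧ BadTo c t.1 y}

lemma floor_close {u v δ : ℝ} (hδ : 0 < δ) (h : ⌊u / δ⌋ = ⌊v / δ⌋) : |u - v| < δ := by
  have := Int.abs_sub_lt_one_of_floor_eq_floor h
  rwa [← sub_div, abs_div, abs_of_pos hδ, div_lt_one hδ] at this

lemma card_grp {c r : ℝ} (hc : 0 < c) (hc1 : c ≤ 1) (z : ℝ × ℝ) {K : ℕ} (hK : 1 ≤ K)
    (G : Finset (ℕ × ℤ × ℤ)) (hG : ∀ t ∈ G, t ∈ grp c z r K) : G.card ≤ 49 * K ^ 2 := by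
  rcases G.eq_empty_or_nonempty with rfl | hne
  · simp
  obtain ⟨t0, ht0, hmax⟩ := Finset.exists_max_image G (fun t => t.1) hne
  obtain ⟨n1, hn, -, y, hy, hbad⟩ := hG t0 ht0
  set N := t0.1 with hN
  have hN0 : (1 : ℝ) ≤ N := by exact_mod_cast n1
  set δ : ℝ := √(c / N) with hδ
  have hδ0 : 0 < δ := Real.sqrt_pos.mpr (by positivity)
  have hδ2 : N * δ ^ 2 = c := by
    rw [hδ, Real.sq_sqrt (by positivity)]
    field_simp
  have hδ1 : δ ≤ 1 := by
    rw [hδ, Real.sqrt_le_one, div_le_one (by positivity)]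
    linarith
  have hNr : N * r ≤ K * δ := by
    apply le_of_sq_le_sq _ (by positivity)
    apply le_of_mul_le_mul_left _ (show (0 : ℝ) < N by positivity)
    calc (N : ℝ) * (N * r) ^ 2 = N ^ 3 * r ^ 2 := by ring
      _ ≤ c * K ^ 2 := hn
      _ = N * (K * δ) ^ 2 := by rw [← hδ2]; ring
  let f : ℕ × ℤ × ℤ → ℤ × ℤ := fun t => (⌊(t.1 * y.1 - t.2.1) / δ⌋, ⌊(t.1 * y.2 - t.2.2) / δ⌋)
  have hfl : ∀ u : ℝ, |u| ≤ 3 * (N * r) → ⌊u / δ⌋ ∈ Finset.Icc (-(3 * K : ℤ)) (3 * K) := by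
    intro u hu
    have h1 : |u / δ| ≤ 3 * K := by
      rw [abs_div, abs_of_pos hδ0, div_le_iff₀ hδ0]
      linarith
    rw [abs_le] at h1
    rw [Finset.mem_Icc, Int.le_floor, Int.floor_le_iff]
    push_cast
    constructor <;> linarith [h1.1, h1.2]
  have hmaps : ∀ t ∈ G, f t ∈ Finset.Icc (-(3 * K : ℤ)) (3 * K) ×ˢ Finset.Icc (-(3 * K : ℤ)) (3 * K) := by
    intro t ht
    obtain ⟨a1, -, a3, -⟩ := hG t ht
    have a4 : dist y ((t.2.1 : ℝ) / t.1, (t.2.2 : ℝ) / t.1) ≤ 3 * r := by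
      linarith [dist_triangle_right y ((t.2.1 : ℝ) / t.1, (t.2.2 : ℝ) / t.1) z]
    rw [Prod.dist_eq, max_le_iff, Real.dist_eq, Real.dist_eq] at a4
    have m0 : (0 : ℝ) < t.1 := by exact_mod_cast a1
    have m1 : (t.1 : ℝ) ≤ N := by exact_mod_cast hmax t ht
    have key : ∀ (u : ℝ) (p : ℤ), |u - p / t.1| ≤ 3 * r → |t.1 * u - p| ≤ 3 * (N * r) := by
      intro u p h
      have : (t.1 : ℝ) * u - p = t.1 * (u - p / t.1) := by field_simp
      rw [this, abs_mul, abs_of_pos m0]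
      calc (t.1 : ℝ) * |u - p / t.1| ≤ N * (3 * r) := by gcongr
        _ = _ := by ring
    exact Finset.mem_product.mpr ⟨hfl _ (key _ _ a4.1), hfl _ (key _ _ a4.2)⟩
  have hinj0 : ∀ t ∈ G, ∀ t' ∈ G, t'.1 ≤ t.1 → f t = f t' → t = t' := by
    rintro ⟨n, p, q⟩ ht ⟨n', p', q'⟩ ht' hle hf
    simp only at hle
    have e1 := floor_close hδ0 (congrArg Prod.fst hf)
    have e2 := floor_close hδ0 (congrArg Prod.snd hf)
    simp only at e1 e2
    have a1 : 1 ≤ n' := (hG _ ht').1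
    have a2 : n ≤ N := hmax _ ht
    rcases hle.lt_or_eq with hlt | rfl
    · exfalso
      have h1 := hbad (n - n') (by omega) (by omega) (p - p') (q - q')
      have c1 : ((n - n' : ℕ) : ℝ) = n - n' := by rw [Nat.cast_sub hle]
      have c2 : ((n - n' : ℕ) : ℝ) ≤ N := by exact_mod_cast (by omega : n - n' ≤ N)
      have h2 : max |((n - n' : ℕ) : ℝ) * y.1 - ((p - p' : ℤ) : ℝ)|
          |((n - n' : ℕ) : ℝ) * y.2 - ((q - q' : ℤ) : ℝ)| < δ := by
        rw [c1]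
        push_cast
        apply max_lt
        · refine lt_of_le_of_lt (le_of_eq ?_) e1
          congr 1
          ring
        · refine lt_of_le_of_lt (le_of_eq ?_) e2
          congr 1
          ring
      have h3 := pow_lt_pow_left₀ h2 (le_max_of_le_left (abs_nonneg _)) two_ne_zero
      have h4 := mul_le_mul_of_nonneg_right c2 (sq_nonneg (max
        |((n - n' : ℕ) : ℝ) * y.1 - ((p - p' : ℤ) : ℝ)|
          |((n - n' : ℕ) : ℝ) * y.2 - ((q - q' : ℤ) : ℝ)|))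
      have h5 := mul_lt_mul_of_pos_left h3 (show (0 : ℝ) < N by positivity)
      linarith
    · have g1 : |p' - p| < 1 := by
        have : |((p' - p : ℤ) : ℝ)| < 1 := by
          push_cast
          refine lt_of_le_of_lt (le_of_eq ?_) (e1.trans_le hδ1)
          congr 1
          ring
        exact_mod_cast this
      have g2 : |q' - q| < 1 := by
        have : |((q' - q : ℤ) : ℝ)| < 1 := by
          push_cast
          refine lt_of_le_of_lt (le_of_eq ?_) (e2.trans_le hδ1)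
          congr 1
          ring
        exact_mod_cast this
      rw [Int.abs_lt_one_iff, sub_eq_zero] at g1 g2
      rw [g1, g2]
  have hinj : Set.InjOn f G := by
    intro t ht t' ht' hf
    rcases le_total t'.1 t.1 with h | h
    · exact hinj0 t ht t' ht' h hf
    · exact (hinj0 t' ht' t ht h hf.symm).symm
  have := Finset.card_le_card_of_injOn f hmaps hinj
  rw [Finset.card_product, Int.card_Icc] at this
  have e : (3 * (K : ℤ) + 1 - -(3 * K)).toNat = 6 * K + 1 := by omega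
  rw [e] at this
  nlinarith

lemma tsum_grp {c r : ℝ} (hc : 0 < c) (hc1 : c ≤ 1) (z : ℝ × ℝ) {K : ℕ} (hK : 1 ≤ K)
    (w : ℝ≥0∞) : ∑' _t : grp c z r K, w ≤ (49 * K ^ 2 : ℕ) * w := by
  rw [ENNReal.tsum_eq_iSup_sum]
  refine iSup_le fun s => ?_
  rw [Finset.sum_const, nsmul_eq_mul]
  gcongr
  rw [← Finset.card_map (Function.Embedding.subtype _)]
  apply card_grp hc hc1 z hK
  intro t ht
  obtain ⟨u, -, rfl⟩ := Finset.mem_map.mp ht
  exact u.2

end Pool.Agent.P.MP_2cf87a_nt
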